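import Pool.Agent.Helper94.US.Stm

set_option autoImplicit false

/-!
# Piece A2a of helper94's project US

The gcd sum over pairs of primes, regrouped into dyadic boxes.
-/

namespace Pool.Agent.Helper19.US

open Finset Pool.Agent.Helper94.US
open scoped Classical

/-- the weight of a triple -/
noncomputable def g (d k k' : ℕ) : ℝ :=
  if (d * k + 1).Prime ∧ (d * k' + 1).Prime then
    (Nat.totient d : ℝ) / ((d : ℝ) ^ 2 * k * k') else 0

lemma g_nonneg (d k k' : ℕ) : 0 ≤ g d k k' := by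
  unfold g; split_ifs <;> positivity

/-- the weight with the logarithm -/
noncomputable def G (d k k' : ℕ) : ℝ :=
  g d k k' / ((Nat.log 2 d : ℝ) + Nat.log 2 k' + 1)

lemma G_nonneg (d k k' : ℕ) : 0 ≤ G d k k' := by
  unfold G; have := g_nonneg d k k'; positivity

lemma sum_dy (f : ℕ → ℝ) (L : ℕ) :
    ∑ d ∈ Ico 1 (2 ^ L), f d = ∑ r ∈ range L, ∑ d ∈ Dy r, f d := by
  induction L with
  | zero => simp
  | succ L ih =>
    rw [sum_range_succ, ← ih, Dy]
    exact (sum_Ico_consecutive f (Nat.one_le_two_pow) (Nat.pow_le_pow_right (by norm_num)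
      (Nat.le_succ L))).symm

lemma log_dy {r d : ℕ} (h : d ∈ Dy r) : Nat.log 2 d = r := by
  rw [Dy, mem_Ico] at h
  exact Nat.log_eq_of_pow_le_of_lt_pow h.1 h.2

lemma rhs_ge (L : ℕ) :
    ∑ d ∈ Ico 1 (2 ^ L), ∑ k' ∈ Ico 1 (2 ^ L), ∑ k ∈ Ico 1 k', G d k k' ≤
    ∑ r ∈ range L, ∑ t ∈ range L, ∑ s ∈ range (t + 1), W r s t / ((r : ℝ) + t + 1) := by
  rw [sum_dy]
  refine sum_le_sum fun r _ => ?_
  have h1 : ∀ d : ℕ, ∑ k' ∈ Ico 1 (2 ^ L), ∑ k ∈ Ico 1 k', G d k k' =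
      ∑ t ∈ range L, ∑ k' ∈ Dy t, ∑ k ∈ Ico 1 k', G d k k' := fun d => sum_dy _ L
  simp_rw [h1]
  rw [sum_comm]
  refine sum_le_sum fun t _ => ?_
  have h2 : ∑ s ∈ range (t + 1), W r s t / ((r : ℝ) + t + 1) =
      ∑ d ∈ Dy r, ∑ k' ∈ Dy t, ∑ s ∈ range (t + 1), ∑ k ∈ Dy s, g d k k' / ((r : ℝ) + t + 1) := by
    have e1 : ∀ s, W r s t / ((r : ℝ) + t + 1) =
        ∑ d ∈ Dy r, ∑ k' ∈ Dy t, ∑ k ∈ Dy s, g d k k' / ((r : ℝ) + t + 1) := by
      intro s
      rw [W, sum_div]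
      refine sum_congr rfl fun d _ => ?_
      rw [sum_comm, sum_div]
      refine sum_congr rfl fun k' _ => ?_
      rw [sum_div]
      rfl
    simp_rw [e1]
    rw [sum_comm]
    refine sum_congr rfl fun d _ => ?_
    rw [sum_comm]
  rw [h2]
  refine sum_le_sum fun d hd => sum_le_sum fun k' hk' => ?_
  rw [← sum_dy (fun k => g d k k' / ((r : ℝ) + t + 1)) (t + 1)]
  have hk'2 : k' ≤ 2 ^ (t + 1) := by
    rw [Dy, mem_Ico] at hk'; exact hk'.2.le
  calc ∑ k ∈ Ico 1 k', G d k k' = ∑ k ∈ Ico 1 k', g d k k' / ((r : ℝ) + t + 1) := by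
        refine sum_congr rfl fun k _ => ?_
        rw [G, log_dy hd, log_dy hk']
    _ ≤ ∑ k ∈ Ico 1 (2 ^ (t + 1)), g d k k' / ((r : ℝ) + t + 1) := by
        refine sum_le_sum_of_subset_of_nonneg (Ico_subset_Ico_right hk'2) fun k _ _ => ?_
        have := g_nonneg d k k'
        positivity

lemma sum_map (d N M : ℕ) (hd : 1 ≤ d) (f F : ℕ → ℝ) (hF : ∀ k, 0 ≤ F k)
    (h : ∀ p, p < N → p.Prime → d ∣ p - 1 → f p ≤ F ((p - 1) / d) ∧ (p - 1) / d < M) :
    ∑ p ∈ (range N).filter Nat.Prime, (if d ∣ p - 1 then f p else 0) ≤ ∑ k ∈ Ico 1 M, F k := by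
  rw [← sum_filter]
  set S := ((range N).filter Nat.Prime).filter (fun p => d ∣ p - 1) with hS
  have hmem : ∀ p ∈ S, p < N ∧ p.Prime ∧ d ∣ p - 1 := by
    intro p hp
    simp only [hS, mem_filter, mem_range] at hp
    exact ⟨hp.1.1, hp.1.2, hp.2⟩
  have hinj : Set.InjOn (fun p => (p - 1) / d) (S : Set ℕ) := by
    intro p hp q hq hpq
    obtain ⟨_, hp2, hp3⟩ := hmem p hp
    obtain ⟨_, hq2, hq3⟩ := hmem q hq
    have e1 := Nat.div_mul_cancel hp3
    have e2 := Nat.div_mul_cancel hq3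
    simp only at hpq
    rw [hpq] at e1
    have := hp2.two_le
    have := hq2.two_le
    omega
  calc ∑ p ∈ S, f p ≤ ∑ p ∈ S, F ((p - 1) / d) :=
        sum_le_sum fun p hp => (h p (hmem p hp).1 (hmem p hp).2.1 (hmem p hp).2.2).1
    _ = ∑ k ∈ S.image (fun p => (p - 1) / d), F k := (sum_image hinj).symm
    _ ≤ ∑ k ∈ Ico 1 M, F k := by
        refine sum_le_sum_of_subset_of_nonneg ?_ fun k _ _ => hF k
        intro k hk
        obtain ⟨p, hp, rfl⟩ := mem_image.mp hk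
        obtain ⟨hp1, hp2, hp3⟩ := hmem p hp
        rw [mem_Ico]
        refine ⟨?_, (h p hp1 hp2 hp3).2⟩
        have := hp2.two_le
        exact Nat.div_pos (Nat.le_of_dvd (by omega) hp3) hd

lemma term_le (d p p' : ℕ) (hd : 1 ≤ d) (hp : p.Prime) (hp' : p'.Prime) (h : d ∣ p - 1)
    (h' : d ∣ p' - 1) :
    (Nat.totient d : ℝ) / (((p : ℝ) - 1) * ((p' : ℝ) - 1) * ((Nat.log 2 p' : ℝ) + 1)) ≤
      G d ((p - 1) / d) ((p' - 1) / d) := by
  obtain ⟨k, hk⟩ := h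
  obtain ⟨k', hk'⟩ := h'
  have h2 := hp.two_le
  have h2' := hp'.two_le
  have ep : p = d * k + 1 := by omega
  have ep' : p' = d * k' + 1 := by omega
  have hk0 : 1 ≤ k := by
    rcases Nat.eq_zero_or_pos k with h0 | h0
    · subst h0; simp at ep; omega
    · exact h0
  have hk0' : 1 ≤ k' := by
    rcases Nat.eq_zero_or_pos k' with h0 | h0
    · subst h0; simp at ep'; omega
    · exact h0
  rw [hk, hk', Nat.mul_div_cancel_left _ hd, Nat.mul_div_cancel_left _ hd]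
  rw [G, g, if_pos ⟨ep ▸ hp, ep' ▸ hp'⟩]
  have hlog : Nat.log 2 d + Nat.log 2 k' ≤ Nat.log 2 p' := by
    apply Nat.le_log_of_pow_le (by norm_num)
    rw [pow_add]
    calc 2 ^ Nat.log 2 d * 2 ^ Nat.log 2 k' ≤ d * k' :=
          Nat.mul_le_mul (Nat.pow_log_le_self 2 (by omega)) (Nat.pow_log_le_self 2 (by omega))
      _ ≤ p' := by omega
  have hlogR : (Nat.log 2 d : ℝ) + Nat.log 2 k' ≤ (Nat.log 2 p' : ℝ) := by exact_mod_cast hlog
  have ep1 : (p : ℝ) - 1 = d * k := by rw [ep]; push_cast; ring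
  have ep1' : (p' : ℝ) - 1 = d * k' := by rw [ep']; push_cast; ring
  rw [ep1, ep1', div_div]
  have hdR : (0 : ℝ) < d := by exact_mod_cast hd
  have hkR : (0 : ℝ) < k := by exact_mod_cast hk0
  have hkR' : (0 : ℝ) < k' := by exact_mod_cast hk0'
  apply div_le_div_of_nonneg_left (by positivity) (by positivity)
  calc (d : ℝ) ^ 2 * k * k' * ((Nat.log 2 d : ℝ) + Nat.log 2 k' + 1) =
        d * k * (d * k') * ((Nat.log 2 d : ℝ) + Nat.log 2 k' + 1) := by ring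
    _ ≤ d * k * (d * k') * ((Nat.log 2 p' : ℝ) + 1) := by gcongr

lemma gcd_sum (a b N : ℕ) (ha : 1 ≤ a) (haN : a < N) :
    ((Nat.gcd a b : ℕ) : ℝ) =
      ∑ d ∈ Ico 1 N, (if d ∣ a ∧ d ∣ b then (Nat.totient d : ℝ) else 0) := by
  rw [← sum_filter]
  have hg : 1 ≤ Nat.gcd a b := Nat.gcd_pos_of_pos_left b ha
  have e : (Ico 1 N).filter (fun d => d ∣ a ∧ d ∣ b) = (Nat.gcd a b).divisors := by
    ext d
    simp only [mem_filter, mem_Ico, Nat.mem_divisors]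
    constructor
    · rintro ⟨_, h1, h2⟩
      exact ⟨Nat.dvd_gcd h1 h2, by omega⟩
    · rintro ⟨h1, _⟩
      have h3 := h1.trans (Nat.gcd_dvd_left a b)
      have h4 := h1.trans (Nat.gcd_dvd_right a b)
      refine ⟨⟨Nat.pos_of_dvd_of_pos h3 ha, ?_⟩, h3, h4⟩
      exact lt_of_le_of_lt (Nat.le_of_dvd ha h3) haN
  rw [e]
  have := Nat.sum_totient (Nat.gcd a b)
  exact_mod_cast this.symm

theorem t_A2a : A2a := by
  intro L
  refine le_trans ?_ (rhs_ge L)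
  have hcoef : ∀ p' ∈ (range (2 ^ L)).filter Nat.Prime, ∀ p ∈ (range p').filter Nat.Prime,
      ((Nat.gcd (p - 1) (p' - 1) : ℕ) : ℝ) /
      (((p : ℝ) - 1) * ((p' : ℝ) - 1) * ((Nat.log 2 p' : ℝ) + 1)) =
      ∑ d ∈ Ico 1 (2 ^ L), (if d ∣ p' - 1 then (if d ∣ p - 1 then (Nat.totient d : ℝ) /
        (((p : ℝ) - 1) * ((p' : ℝ) - 1) * ((Nat.log 2 p' : ℝ) + 1)) else 0) else 0) := by
    intro p' hp' p hp
    simp only [mem_filter, mem_range] at hp hp'
    have h2 := hp.2.two_le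
    rw [gcd_sum (p - 1) (p' - 1) (2 ^ L) (by omega) (by omega), sum_div]
    refine sum_congr rfl fun d _ => ?_
    by_cases h1 : d ∣ p - 1 <;> by_cases h2 : d ∣ p' - 1 <;> simp [h1, h2]
  calc _ = ∑ p' ∈ (range (2 ^ L)).filter Nat.Prime, ∑ p ∈ (range p').filter Nat.Prime,
      ∑ d ∈ Ico 1 (2 ^ L), (if d ∣ p' - 1 then (if d ∣ p - 1 then (Nat.totient d : ℝ) /
        (((p : ℝ) - 1) * ((p' : ℝ) - 1) * ((Nat.log 2 p' : ℝ) + 1)) else 0) else 0) :=
        sum_congr rfl fun p' hp' => sum_congr rfl fun p hp => hcoef p' hp' p hp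
    _ = ∑ d ∈ Ico 1 (2 ^ L), ∑ p' ∈ (range (2 ^ L)).filter Nat.Prime,
        (if d ∣ p' - 1 then ∑ p ∈ (range p').filter Nat.Prime,
          (if d ∣ p - 1 then (Nat.totient d : ℝ) /
        (((p : ℝ) - 1) * ((p' : ℝ) - 1) * ((Nat.log 2 p' : ℝ) + 1)) else 0) else 0) := by
        rw [sum_comm (s := Ico 1 (2 ^ L))]
        refine sum_congr rfl fun p' _ => ?_
        rw [sum_comm]
        refine sum_congr rfl fun d _ => ?_
        by_cases h : d ∣ p' - 1 <;> simp [h]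
    _ ≤ _ := by
        refine sum_le_sum fun d hd => ?_
        have hd1 : 1 ≤ d := (mem_Ico.mp hd).1
        refine sum_map d (2 ^ L) (2 ^ L) hd1 _ _
          (fun k' => sum_nonneg fun k _ => G_nonneg d k k') ?_
        intro p' hp'N hp' hdp'
        refine ⟨?_, lt_of_le_of_lt (Nat.div_le_self _ _) (by omega)⟩
        refine sum_map d p' ((p' - 1) / d) hd1 _ _ (fun k => G_nonneg d k _) ?_
        intro p hpp hp hdp
        refine ⟨term_le d p p' hd1 hp hp' hdp hdp', ?_⟩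
        have h2 := hp.two_le
        exact Nat.div_lt_div_of_lt_of_dvd hdp' (by omega)

end Pool.Agent.Helper19.US
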